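import Pool.Agent.X224.BD.Code
import Pool.Agent.X224.BD.Generic

/-!
# MP_591151_lc: finite distinguishing number, Borel distinguishing number `2^ℵ₀`

There is a Borel graph with distinguishing number at most `3` all of whose Borel distinguishing
colourings use continuum many colours.  (Positive answer to Q1.)

The graph: vertices are (codes of) graphs `x` on `ℤ` which are copies of the Rado graph and are
not fixed by a nontrivial translation; `x` is adjacent to its translate `n • x` if and only if
`0` and `n` are adjacent in `x`.
-/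

open Cardinal

namespace Pool.Agent.Results.MP_591151_lc.FiniteVersusContinuum

/-- `c` is distinguishing for the graph `G`: every nontrivial automorphism of `G` changes the
colour of some vertex. -/
def Distinguishing {X I : Type} (G : SimpleGraph X) (c : X → I) : Prop :=
  ∀ φ : G ≃g G, (∃ x, φ x ≠ x) → ∃ x, c x ≠ c (φ x)

/-- The distinguishing number. -/
noncomputable def D {X : Type} (G : SimpleGraph X) : Cardinal.{0} :=
  sInf {κ | ∃ (I : Type) (c : X → I), Distinguishing G c ∧ #I = κ}

/-- The Borel distinguishing number. -/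
noncomputable def DB {X : Type} [MeasurableSpace X] (G : SimpleGraph X) : Cardinal.{0} :=
  sInf {κ | ∃ (I : Type) (_ : MeasurableSpace I) (_ : StandardBorelSpace I) (c : X → I),
    Measurable c ∧ Distinguishing G c ∧ #I = κ}

/-- **Positive answer to Q1 of MP_591151_lc.**  There is a Borel graph `G` on a standard Borel
space with `D(G) ≤ 3` (in particular finite) and `D_B(G) = 2^ℵ₀`. -/
theorem result : ∃ (X : Type) (_ : MeasurableSpace X) (_ : StandardBorelSpace X)
    (G : SimpleGraph X), MeasurableSet {p : X × X | G.Adj p.1 p.2} ∧ D G ≤ 3 ∧ DB G = 𝔠 := by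
  refine ⟨Pool.Agent.X224.BD.X, inferInstance, inferInstance, Pool.Agent.X224.BD.G,
    Pool.Agent.X224.BD.measurableSet_G, ?_, ?_⟩
  · obtain ⟨c, hc⟩ := Pool.Agent.X224.BD.three_colours
    refine csInf_le' ⟨Fin 3, c, hc, ?_⟩
    simp
  · have hall : ∀ κ : Cardinal.{0}, (∃ (I : Type) (_ : MeasurableSpace I)
        (_ : StandardBorelSpace I) (c : Pool.Agent.X224.BD.X → I),
        Measurable c ∧ Distinguishing Pool.Agent.X224.BD.G c ∧ #I = κ) → κ = 𝔠 := by
      rintro κ ⟨I, mI, sI, c, hc, hd, rfl⟩
      by_cases hI : Countable I
      · exact absurd hd (Pool.Agent.X224.BD.not_distinguishing c hc)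
      · have e := (PolishSpace.measurableEquivNatBoolOfNotCountable hI).toEquiv
        rw [Cardinal.mk_congr e]
        simp
    have hne : {κ : Cardinal.{0} | ∃ (I : Type) (_ : MeasurableSpace I)
        (_ : StandardBorelSpace I) (c : Pool.Agent.X224.BD.X → I),
        Measurable c ∧ Distinguishing Pool.Agent.X224.BD.G c ∧ #I = κ}.Nonempty := by
      refine ⟨_, Pool.Agent.X224.BD.X, inferInstance, inferInstance, id, measurable_id, ?_, rfl⟩
      rintro φ ⟨x, hx⟩
      exact ⟨x, fun h => hx h.symm⟩
    exact hall _ (csInf_mem hne)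

end Pool.Agent.Results.MP_591151_lc.FiniteVersusContinuum
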